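import Pool.Agent.K1H73.SQB.Stm2

set_option autoImplicit false

/-!
# Project SQB: collisions of two quadratic polynomials on average (`S_COLL2`)
-/

namespace Pool.Agent.K1H25.SQB

open Finset Filter Topology Pool.Agent.Y862.SQ Pool.Agent.K1H73.SQB

/-- the resultant as a polynomial in `x` -/
def Rq (h D x : ℕ) : ℕ := (Nat.dist h x) ^ 2 + 2 * D ^ 2 * (h + x) + D ^ 4

theorem dist_sq (h x : ℕ) : ((Nat.dist h x : ℕ) : ℤ) ^ 2 = ((x : ℤ) - h) ^ 2 := by
  rcases le_total h x with hx | hx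
  · rw [Nat.dist_eq_sub_of_le hx, Nat.cast_sub hx]
  · rw [Nat.dist_eq_sub_of_le_right hx, Nat.cast_sub hx]
    ring

theorem Rq_cast (h D x : ℕ) : ((Rq h D x : ℕ) : ℤ) =
    ((x : ℤ) - h) ^ 2 + 2 * (D : ℤ) ^ 2 * (h + x) + (D : ℤ) ^ 4 := by
  unfold Rq
  push_cast
  rw [dist_sq]

/-- at most two roots modulo a prime -/
theorem roots {p : ℕ} (hp : p.Prime) (h D : ℕ) : ∃ b₁ b₂ : ℕ, ∀ x, p ∣ Rq h D x →
    x ≡ b₁ [MOD p] ∨ x ≡ b₂ [MOD p] := by
  by_cases hex : ∃ x, p ∣ Rq h D x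
  · obtain ⟨x₁, hx₁⟩ := hex
    have hp0 : (0 : ℤ) < p := by exact_mod_cast hp.pos
    refine ⟨x₁, ((2 * h - 2 * D ^ 2 - x₁ : ℤ) % p).toNat, fun x hx => ?_⟩
    have h1 : (p : ℤ) ∣ ((x : ℤ) - x₁) * (x + x₁ - 2 * h + 2 * D ^ 2) := by
      have h2 : (p : ℤ) ∣ (Rq h D x : ℤ) - (Rq h D x₁ : ℤ) :=
        dvd_sub (Int.natCast_dvd_natCast.2 hx) (Int.natCast_dvd_natCast.2 hx₁)
      rw [Rq_cast, Rq_cast] at h2
      have e : ((x : ℤ) - x₁) * (x + x₁ - 2 * h + 2 * D ^ 2) =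
          (((x : ℤ) - h) ^ 2 + 2 * (D : ℤ) ^ 2 * (h + x) + (D : ℤ) ^ 4) -
          (((x₁ : ℤ) - h) ^ 2 + 2 * (D : ℤ) ^ 2 * (h + x₁) + (D : ℤ) ^ 4) := by ring
      rw [e]
      exact h2
    rcases (Nat.prime_iff_prime_int.1 hp).dvd_or_dvd h1 with h2 | h2
    · left
      rw [Nat.modEq_iff_dvd, ← dvd_neg, neg_sub]
      exact h2
    · right
      rw [Nat.modEq_iff_dvd, Int.toNat_of_nonneg (Int.emod_nonneg _ hp0.ne')]
      have e : (2 * h - 2 * D ^ 2 - x₁ : ℤ) % p - x =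
          -((x : ℤ) + x₁ - 2 * h + 2 * D ^ 2) - p * ((2 * h - 2 * D ^ 2 - x₁ : ℤ) / p) := by
        have := Int.emod_add_mul_ediv (2 * h - 2 * D ^ 2 - x₁ : ℤ) p
        linarith
      rw [e]
      exact dvd_sub ((dvd_neg).2 h2) (dvd_mul_right _ _)
  · exact ⟨0, 0, fun x hx => absurd ⟨x, hx⟩ hex⟩

/-- at most `2 ^ |U|` classes modulo the product -/
theorem classes (h D : ℕ) (U : Finset ℕ) (hU : ∀ p ∈ U, p.Prime) : ∃ S : Finset ℕ,
    S.card ≤ 2 ^ U.card ∧ ∀ x, (∀ p ∈ U, p ∣ Rq h D x) → ∃ a ∈ S, x ≡ a [MOD ∏ p ∈ U, p] := by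
  classical
  induction U using Finset.induction_on with
  | empty =>
    refine ⟨{0}, by simp, fun x _ => ⟨0, by simp, ?_⟩⟩
    rw [prod_empty]
    exact Nat.modEq_one
  | insert p U hpU ih =>
    obtain ⟨S, hS, hx⟩ := ih fun q hq => hU q (mem_insert_of_mem hq)
    have hp := hU p (mem_insert_self _ _)
    obtain ⟨b₁, b₂, hb⟩ := roots hp h D
    have hco : p.Coprime (∏ q ∈ U, q) := Nat.Coprime.prod_right fun q hq =>
      (Nat.coprime_primes hp (hU q (mem_insert_of_mem hq))).2 fun e => hpU (e ▸ hq)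
    refine ⟨S.image (fun a => (Nat.chineseRemainder hco b₁ a : ℕ)) ∪
      S.image (fun a => (Nat.chineseRemainder hco b₂ a : ℕ)), ?_, fun x hxx => ?_⟩
    · refine (card_union_le _ _).trans ?_
      rw [card_insert_of_notMem hpU, pow_succ]
      have h1 := card_image_le (s := S) (f := fun a => (Nat.chineseRemainder hco b₁ a : ℕ))
      have h2 := card_image_le (s := S) (f := fun a => (Nat.chineseRemainder hco b₂ a : ℕ))
      omega
    · obtain ⟨a, ha, hxa⟩ := hx x fun q hq => hxx q (mem_insert_of_mem hq)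
      rw [prod_insert hpU]
      rcases hb x (hxx p (mem_insert_self _ _)) with h1 | h1
      · refine ⟨_, mem_union_left _ (mem_image_of_mem _ ha), ?_⟩
        obtain ⟨c1, c2⟩ := (Nat.chineseRemainder hco b₁ a).2
        exact (Nat.modEq_and_modEq_iff_modEq_mul hco).1 ⟨h1.trans c1.symm, hxa.trans c2.symm⟩
      · refine ⟨_, mem_union_right _ (mem_image_of_mem _ ha), ?_⟩
        obtain ⟨c1, c2⟩ := (Nat.chineseRemainder hco b₂ a).2
        exact (Nat.modEq_and_modEq_iff_modEq_mul hco).1 ⟨h1.trans c1.symm, hxa.trans c2.symm⟩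

theorem cnt_class (T d a : ℕ) (hd : 0 < d) :
    (((Icc 1 T).filter (fun x => x ≡ a [MOD d])).card : ℝ) ≤ T / d + 1 := by
  have h1 := Nat.Ioc_filter_modEq_card 0 T hd a
  have e : Ioc 0 T = Icc 1 T := by
    ext x
    rw [mem_Ioc, mem_Icc]
    omega
  rw [e] at h1
  have hd0 : (0 : ℚ) < d := by exact_mod_cast hd
  have h2 : ((⌊((T : ℚ) - a) / d⌋ : ℤ) : ℚ) ≤ ((T : ℚ) - a) / d := Int.floor_le _
  have h3 : (((0 : ℕ) : ℚ) - a) / d - 1 < ((⌊(((0 : ℕ) : ℚ) - a) / d⌋ : ℤ) : ℚ) :=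
    Int.sub_one_lt_floor _
  have h4 : (((Icc 1 T).filter (fun x => x ≡ a [MOD d])).card : ℚ) ≤ T / d + 1 := by
    have h5 : (((Icc 1 T).filter (fun x => x ≡ a [MOD d])).card : ℚ) =
        ((max (⌊((T : ℚ) - a) / d⌋ - ⌊(((0 : ℕ) : ℚ) - a) / d⌋) 0 : ℤ) : ℚ) := by
      rw [← h1]
      norm_cast
    rw [h5]
    push_cast
    refine max_le ?_ (by positivity)
    have h6 : ((T : ℚ) - a) / d - (0 - a) / d = T / d := by ring
    push_cast at h3
    linarith
  have h7 : ((((Icc 1 T).filter (fun x => x ≡ a [MOD d])).card : ℚ) : ℝ) ≤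
      ((T / d + 1 : ℚ) : ℝ) := by exact_mod_cast h4
  push_cast at h7
  exact h7

/-- the number of the `x ≤ T` with `Rq` divisible by all primes in `U` -/
theorem cnt (h D T : ℕ) (U : Finset ℕ) (hU : ∀ p ∈ U, p.Prime) (hT : ∏ p ∈ U, p ≤ T) :
    (((Icc 1 T).filter (fun x => ∀ p ∈ U, p ∣ Rq h D x)).card : ℝ) ≤
      2 * T * ∏ p ∈ U, (2 / (p : ℝ)) := by
  classical
  obtain ⟨S, hS, hx⟩ := classes h D U hU
  have hd : 0 < ∏ p ∈ U, p := prod_pos fun p hp => (hU p hp).pos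
  have hd0 : (0 : ℝ) < ((∏ p ∈ U, p : ℕ) : ℝ) := by exact_mod_cast hd
  have h1 : (Icc 1 T).filter (fun x => ∀ p ∈ U, p ∣ Rq h D x) ⊆
      S.biUnion fun a => (Icc 1 T).filter (fun x => x ≡ a [MOD ∏ p ∈ U, p]) := by
    intro x hx'
    rw [mem_filter] at hx'
    obtain ⟨a, ha, hxa⟩ := hx x hx'.2
    rw [mem_biUnion]
    exact ⟨a, ha, mem_filter.2 ⟨hx'.1, hxa⟩⟩
  have h2 := (card_le_card h1).trans card_biUnion_le
  have h3 : (((Icc 1 T).filter (fun x => ∀ p ∈ U, p ∣ Rq h D x)).card : ℝ) ≤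
      ∑ a ∈ S, (((Icc 1 T).filter (fun x => x ≡ a [MOD ∏ p ∈ U, p])).card : ℝ) := by
    exact_mod_cast h2
  have h4 : ∑ a ∈ S, (((Icc 1 T).filter (fun x => x ≡ a [MOD ∏ p ∈ U, p])).card : ℝ) ≤
      S.card * ((T : ℝ) / ((∏ p ∈ U, p : ℕ) : ℝ) + 1) := by
    have := sum_le_card_nsmul S _ _ fun a _ => cnt_class T (∏ p ∈ U, p) a hd
    rwa [nsmul_eq_mul] at this
  have h5 : (1 : ℝ) ≤ (T : ℝ) / ((∏ p ∈ U, p : ℕ) : ℝ) := by
    rw [le_div_iff₀ hd0, one_mul]
    exact_mod_cast hT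
  have h6 : (S.card : ℝ) ≤ 2 ^ U.card := by exact_mod_cast hS
  have h7 : ∏ p ∈ U, (2 / (p : ℝ)) = 2 ^ U.card / ((∏ p ∈ U, p : ℕ) : ℝ) := by
    rw [prod_div_distrib, prod_const, Nat.cast_prod]
  have h8 : (0 : ℝ) ≤ S.card := Nat.cast_nonneg _
  calc (((Icc 1 T).filter (fun x => ∀ p ∈ U, p ∣ Rq h D x)).card : ℝ)
      ≤ S.card * ((T : ℝ) / ((∏ p ∈ U, p : ℕ) : ℝ) + 1) := h3.trans h4
    _ ≤ 2 ^ U.card * (2 * ((T : ℝ) / ((∏ p ∈ U, p : ℕ) : ℝ))) :=
        mul_le_mul h6 (by linarith) (by positivity) (by positivity)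
    _ = 2 * T * ∏ p ∈ U, (2 / (p : ℝ)) := by rw [h7]; ring

theorem exp_aux {x : ℝ} : Real.exp x - 1 ≤ x * Real.exp x := by
  have h := Real.add_one_le_exp (-x)
  have h1 : Real.exp x * (-x + 1) ≤ Real.exp x * Real.exp (-x) :=
    mul_le_mul_of_nonneg_left h (Real.exp_pos x).le
  rw [← Real.exp_add, add_neg_cancel, Real.exp_zero] at h1
  linarith

/-- the primes between `w` and `P` -/
def Qs (w P : ℕ) : Finset ℕ := (Icc 1 P).filter (fun p => p.Prime ∧ w < p)

theorem prod_Q_le (K w P : ℕ) (hw : 1 ≤ w) :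
    ∏ p ∈ Qs w P, (1 + (K : ℝ) * (2 / (p : ℝ) ^ 2)) - 1 ≤
      2 * (K : ℝ) * Real.exp (2 * (K : ℝ)) / w := by
  have hK0 : (0 : ℝ) ≤ K := Nat.cast_nonneg K
  have hw0 : (0 : ℝ) < w := by exact_mod_cast hw
  have h7 : ∑ p ∈ Qs w P, (K : ℝ) * (2 / (p : ℝ) ^ 2) ≤ 2 * (K : ℝ) / w := by
    have hsub : Qs w P ⊆ Ioc w P := by
      intro p hp
      rw [Qs, mem_filter, mem_Icc] at hp
      rw [mem_Ioc]
      exact ⟨hp.2.2, hp.1.2⟩
    have h8 : ∑ p ∈ Ioc w P, ((p : ℝ) ^ 2)⁻¹ ≤ (w : ℝ)⁻¹ := by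
      rcases le_total w P with h | h
      · have h9 := sum_Ioc_inv_sq_le_sub (α := ℝ) (show w ≠ 0 by omega) h
        have h10 : (0 : ℝ) ≤ (P : ℝ)⁻¹ := by positivity
        linarith
      · rw [Ioc_eq_empty_of_le h, sum_empty]
        positivity
    calc ∑ p ∈ Qs w P, (K : ℝ) * (2 / (p : ℝ) ^ 2) ≤ ∑ p ∈ Ioc w P, (K : ℝ) * (2 / (p : ℝ) ^ 2) :=
          sum_le_sum_of_subset_of_nonneg hsub fun p _ _ => by positivity
      _ = 2 * (K : ℝ) * ∑ p ∈ Ioc w P, ((p : ℝ) ^ 2)⁻¹ := by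
          rw [mul_sum]
          apply sum_congr rfl
          intro p _
          rw [div_eq_mul_inv]
          ring
      _ ≤ 2 * (K : ℝ) * (w : ℝ)⁻¹ := mul_le_mul_of_nonneg_left h8 (by positivity)
      _ = 2 * (K : ℝ) / w := by rw [div_eq_mul_inv]
  have h11 : ∏ p ∈ Qs w P, (1 + (K : ℝ) * (2 / (p : ℝ) ^ 2)) ≤ Real.exp (2 * (K : ℝ) / w) := by
    calc ∏ p ∈ Qs w P, (1 + (K : ℝ) * (2 / (p : ℝ) ^ 2)) ≤
          ∏ p ∈ Qs w P, Real.exp ((K : ℝ) * (2 / (p : ℝ) ^ 2)) := by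
          apply Finset.prod_le_prod
          · intro p _
            positivity
          · intro p _
            rw [add_comm]
            exact Real.add_one_le_exp _
      _ = Real.exp (∑ p ∈ Qs w P, (K : ℝ) * (2 / (p : ℝ) ^ 2)) := (Real.exp_sum _ _).symm
      _ ≤ _ := Real.exp_le_exp.2 h7
  have h12 : Real.exp (2 * (K : ℝ) / w) - 1 ≤ 2 * (K : ℝ) / w * Real.exp (2 * (K : ℝ)) := by
    refine exp_aux.trans ?_
    apply mul_le_mul_of_nonneg_left _ (by positivity)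
    apply Real.exp_le_exp.2
    rw [div_le_iff₀ hw0]
    have : (1 : ℝ) ≤ w := by exact_mod_cast hw
    nlinarith
  calc ∏ p ∈ Qs w P, (1 + (K : ℝ) * (2 / (p : ℝ) ^ 2)) - 1 ≤ Real.exp (2 * (K : ℝ) / w) - 1 := by
        linarith
    _ ≤ 2 * (K : ℝ) / w * Real.exp (2 * (K : ℝ)) := h12
    _ = _ := by ring

/-- the small primes on average -/
theorem avg (K w P T h D : ℕ) (hw : 1 ≤ w) (hP : 4 ^ P ≤ T) (X : Finset ℕ) (hX : X ⊆ Icc 1 T) :
    ∑ x ∈ X, (∏ p ∈ (Qs w P).filter (fun p => p ∣ Rq h D x), (1 + (K : ℝ) / p) - 1) ≤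
      4 * (K : ℝ) * Real.exp (2 * (K : ℝ)) * T / w := by
  classical
  have h1 : ∀ x, ∏ p ∈ (Qs w P).filter (fun p => p ∣ Rq h D x), (1 + (K : ℝ) / p) =
      ∑ U ∈ (Qs w P).powerset, if (∀ p ∈ U, p ∣ Rq h D x) then ∏ p ∈ U, (K : ℝ) / p else 0 := by
    intro x
    rw [prod_filter]
    have e2 : ∀ p ∈ Qs w P, (if p ∣ Rq h D x then 1 + (K : ℝ) / p else 1) =
        1 + if p ∣ Rq h D x then (K : ℝ) / p else 0 := by
      intro p _
      split_ifs
      · rfl
      · rw [add_zero]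
    rw [prod_congr rfl e2, prod_one_add]
    apply sum_congr rfl
    intro U _
    rw [prod_ite_zero]
  have h2 : ∀ U ∈ (Qs w P).powerset.erase ∅, ∑ x ∈ X, (if (∀ p ∈ U, p ∣ Rq h D x) then
      ∏ p ∈ U, (K : ℝ) / p else 0) ≤ 2 * (T : ℝ) * ∏ p ∈ U, ((K : ℝ) * (2 / (p : ℝ) ^ 2)) := by
    intro U hU
    rw [mem_erase, mem_powerset] at hU
    have hpr : ∀ p ∈ U, p.Prime := fun p hp => by
      have := hU.2 hp
      rw [Qs, mem_filter] at this
      exact this.2.1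
    have hle : ∏ p ∈ U, p ≤ T := by
      have h3 : U ⊆ (range (P + 1)).filter (fun p => p.Prime) := by
        intro p hp
        have := hU.2 hp
        rw [Qs, mem_filter, mem_Icc] at this
        rw [mem_filter, mem_range]
        exact ⟨by omega, this.2.1⟩
      calc ∏ p ∈ U, p ≤ ∏ p ∈ (range (P + 1)).filter (fun p => p.Prime), p :=
            prod_le_prod_of_subset_of_one_le' h3 fun p hp _ => (mem_filter.1 hp).2.one_le
        _ ≤ 4 ^ P := primorial_le_four_pow P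
        _ ≤ T := hP
    have h5 : 0 ≤ ∏ p ∈ U, (K : ℝ) / p := prod_nonneg fun p _ => by positivity
    calc ∑ x ∈ X, (if (∀ p ∈ U, p ∣ Rq h D x) then ∏ p ∈ U, (K : ℝ) / p else 0)
        ≤ ∑ x ∈ Icc 1 T, (if (∀ p ∈ U, p ∣ Rq h D x) then ∏ p ∈ U, (K : ℝ) / p else 0) :=
          sum_le_sum_of_subset_of_nonneg hX fun x _ _ => by
            split_ifs
            · exact h5
            · exact le_rfl
      _ = (((Icc 1 T).filter (fun x => ∀ p ∈ U, p ∣ Rq h D x)).card : ℝ) *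
            ∏ p ∈ U, (K : ℝ) / p := by
          rw [← sum_filter, sum_const, nsmul_eq_mul]
      _ ≤ (2 * T * ∏ p ∈ U, (2 / (p : ℝ))) * ∏ p ∈ U, (K : ℝ) / p :=
          mul_le_mul_of_nonneg_right (cnt h D T U hpr hle) h5
      _ = 2 * T * ∏ p ∈ U, ((K : ℝ) * (2 / (p : ℝ) ^ 2)) := by
          rw [mul_assoc, ← prod_mul_distrib]
          congr 1
          apply prod_congr rfl
          intro p _
          ring
  have h3 : ∀ x, ∏ p ∈ (Qs w P).filter (fun p => p ∣ Rq h D x), (1 + (K : ℝ) / p) - 1 =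
      ∑ U ∈ (Qs w P).powerset.erase ∅,
        if (∀ p ∈ U, p ∣ Rq h D x) then ∏ p ∈ U, (K : ℝ) / p else 0 := by
    intro x
    rw [h1 x, ← add_sum_erase _ _ (empty_mem_powerset (Qs w P))]
    simp
  have h4 : ∑ U ∈ (Qs w P).powerset.erase ∅, 2 * (T : ℝ) * ∏ p ∈ U, ((K : ℝ) * (2 / (p : ℝ) ^ 2)) =
      2 * T * (∏ p ∈ Qs w P, (1 + (K : ℝ) * (2 / (p : ℝ) ^ 2)) - 1) := by
    rw [← mul_sum, prod_one_add, ← add_sum_erase _ _ (empty_mem_powerset (Qs w P))]
    simp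
  rw [sum_congr rfl fun x _ => h3 x, sum_comm]
  refine (sum_le_sum h2).trans ?_
  rw [h4]
  have h5 := mul_le_mul_of_nonneg_left (prod_Q_le K w P hw) (show (0 : ℝ) ≤ 2 * T by positivity)
  refine h5.trans (le_of_eq ?_)
  ring

/-- the large primes -/
theorem big (K P R : ℕ) (hP : 2 ≤ P) (hR : R ≠ 0) (B : Finset ℕ)
    (hB : ∀ p ∈ B, p.Prime ∧ P < p ∧ p ∣ R) (hL : Real.log R ≤ 9 * P) :
    ∏ p ∈ B, (1 + (K : ℝ) / p) ≤ Real.exp (9 * K / Real.log P) := by
  have hP0 : (0 : ℝ) < P := by exact_mod_cast (by omega : 0 < P)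
  have hlog : 0 < Real.log P := Real.log_pos (by exact_mod_cast (by omega : 1 < P))
  have h1 : P ^ B.card ≤ R := by
    have h2 : ∏ p ∈ B, p ∣ R := prod_primes_dvd R (fun p hp => (hB p hp).1.prime)
      fun p hp => (hB p hp).2.2
    refine le_trans ?_ (Nat.le_of_dvd (Nat.pos_of_ne_zero hR) h2)
    rw [← prod_const]
    exact Finset.prod_le_prod' fun p hp => (hB p hp).2.1.le
  have h3 : (B.card : ℝ) * Real.log P ≤ Real.log R := by
    rw [← Real.log_pow]
    refine Real.log_le_log (by positivity) ?_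
    exact_mod_cast h1
  have h4 : (B.card : ℝ) ≤ 9 * P / Real.log P := by
    rw [le_div_iff₀ hlog]
    exact h3.trans hL
  calc ∏ p ∈ B, (1 + (K : ℝ) / p) ≤ ∏ p ∈ B, Real.exp ((K : ℝ) / P) := by
        refine Finset.prod_le_prod (fun p _ => by positivity) fun p hp => ?_
        have h5 : (K : ℝ) / p ≤ (K : ℝ) / P :=
          div_le_div_of_nonneg_left (Nat.cast_nonneg K) hP0 (by exact_mod_cast (hB p hp).2.1.le)
        have h6 := Real.add_one_le_exp ((K : ℝ) / P)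
        linarith
    _ = Real.exp ((B.card : ℝ) * ((K : ℝ) / P)) := by
        rw [prod_const, ← Real.exp_nat_mul]
    _ ≤ Real.exp (9 * K / Real.log P) := by
        refine Real.exp_le_exp.2 ?_
        have h7 := mul_le_mul_of_nonneg_right h4 (show (0 : ℝ) ≤ (K : ℝ) / P by positivity)
        refine h7.trans (le_of_eq ?_)
        field_simp

theorem exists_P (K w : ℕ) (hw : 1 ≤ w) : ∃ P₁ : ℕ, 2 ≤ P₁ ∧ ∀ P : ℕ, P₁ ≤ P →
    Real.exp (9 * K / Real.log P) ≤ 1 + 1 / (w : ℝ) := by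
  have hw0 : (0 : ℝ) < w := by exact_mod_cast hw
  have h1 : Tendsto (fun P : ℕ => Real.exp (9 * K / Real.log P)) atTop (𝓝 1) := by
    have h2 : Tendsto (fun P : ℕ => 9 * (K : ℝ) / Real.log P) atTop (𝓝 0) :=
      (Real.tendsto_log_atTop.comp tendsto_natCast_atTop_atTop).const_div_atTop _
    have h3 := (Real.continuous_exp.tendsto 0).comp h2
    rw [Real.exp_zero] at h3
    exact h3
  have h2 : (1 : ℝ) < 1 + 1 / (w : ℝ) := by
    have : (0 : ℝ) < 1 / w := by positivity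
    linarith
  obtain ⟨P₁, h3⟩ := (h1.eventually (ge_mem_nhds h2)).exists_forall_of_atTop
  exact ⟨max P₁ 2, le_max_right _ _, fun P hP => h3 P ((le_max_left _ _).trans hP)⟩

theorem t_COLL2 : S_COLL2 := by
  intro K J
  set c : ℝ := 4 * (K : ℝ) * Real.exp (2 * (K : ℝ)) with hc
  have hc0 : 0 ≤ c := by positivity
  refine ⟨(J + 1) * (2 * c + 1), by positivity, fun w hw => ?_⟩
  have hw0 : (0 : ℝ) < w := by exact_mod_cast hw
  obtain ⟨P₁, hP₁, hexp⟩ := exists_P K w hw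
  refine ⟨max (⌈Real.exp (2 * P₁)⌉₊) (5 * J ^ 2 + 1), fun T hT z hz => ?_⟩
  have hT1 : Real.exp (2 * P₁) ≤ T := (Nat.le_ceil _).trans (by
    exact_mod_cast (le_max_left _ _).trans hT)
  have hT2 : 5 * J ^ 2 + 1 ≤ T := (le_max_right _ _).trans hT
  have hT0 : (0 : ℝ) < T := lt_of_lt_of_le (Real.exp_pos _) hT1
  have hlogT : (2 : ℝ) * P₁ ≤ Real.log T := by
    rw [← Real.log_exp (2 * (P₁ : ℝ))]
    exact Real.log_le_log (Real.exp_pos _) hT1
  set P : ℕ := ⌊Real.log T / 2⌋₊ with hPdef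
  have hP₁P : P₁ ≤ P := Nat.le_floor (by linarith)
  have hP2 : 2 ≤ P := hP₁.trans hP₁P
  have hPle : (P : ℝ) ≤ Real.log T / 2 := Nat.floor_le (by
    have : (0 : ℝ) ≤ P₁ := Nat.cast_nonneg _
    linarith)
  have hPlt : Real.log T / 2 < P + 1 := Nat.lt_floor_add_one _
  have h4P : 4 ^ P ≤ T := by
    have h1 : (4 : ℝ) ^ P ≤ T := by
      have h2 : Real.log 4 ≤ 2 := by
        have h3 : Real.log 4 = 2 * Real.log 2 := by
          rw [show (4 : ℝ) = 2 ^ 2 by norm_num, Real.log_pow]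
          norm_num
        have := Real.log_two_lt_d9
        linarith
      calc (4 : ℝ) ^ P = Real.exp (P * Real.log 4) := by
            rw [Real.exp_nat_mul, Real.exp_log (by norm_num)]
        _ ≤ Real.exp (Real.log T) := by
            refine Real.exp_le_exp.2 ?_
            have h5 := mul_le_mul_of_nonneg_left h2 (Nat.cast_nonneg (α := ℝ) P)
            linarith
        _ = T := Real.exp_log hT0
    exact_mod_cast h1
  have hexpP := hexp P hP₁P
  obtain ⟨j, h⟩ := z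
  rw [EE, mem_product, mem_range, mem_Icc] at hz
  obtain ⟨hj, hh1, hh2⟩ := hz
  simp only at hj hh1 hh2
  have inner : ∀ j' ∈ range (J + 1), ∑ x ∈ (Icc 1 T).filter (fun x => (j', x) ≠ (j, h)),
      (Dd K w (Rn (j, h) (j', x)) - 1) ≤ (2 * c + 1) * T / w := by
    intro j' hj'
    rw [mem_range] at hj'
    set D := Nat.dist j j' with hD
    have hDJ : D ≤ J := by
      rw [hD]
      unfold Nat.dist
      omega
    set X := (Icc 1 T).filter (fun x => (j', x) ≠ (j, h)) with hX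
    have hXsub : X ⊆ Icc 1 T := filter_subset _ _
    have hpt : ∀ x ∈ X, Dd K w (Rn (j, h) (j', x)) - 1 ≤
        (1 + 1 / (w : ℝ)) * (∏ p ∈ (Qs w P).filter (fun p => p ∣ Rq h D x), (1 + (K : ℝ) / p) - 1) +
          1 / w := by
      intro x hx
      rw [hX, mem_filter, mem_Icc] at hx
      have hR : Rn (j, h) (j', x) = Rq h D x := rfl
      have hR0 : Rq h D x ≠ 0 := by
        unfold Rq
        rcases Nat.eq_zero_or_pos D with h0 | h0
        · have hjj : j = j' := by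
            rw [hD] at h0
            unfold Nat.dist at h0
            omega
          have hhx : h ≠ x := by
            rintro rfl
            exact hx.2 (by rw [hjj])
          have := Nat.dist_pos_of_ne hhx
          positivity
        · have : 0 < h + x := by omega
          positivity
      have hRT : Rq h D x ≤ 2 * T ^ 2 := by
        unfold Rq
        have h1 : Nat.dist h x ≤ T := by
          unfold Nat.dist
          omega
        have h2 : Nat.dist h x ^ 2 ≤ T ^ 2 := Nat.pow_le_pow_left h1 2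
        have h3 : D ^ 2 ≤ J ^ 2 := Nat.pow_le_pow_left hDJ 2
        have h4 : 2 * D ^ 2 * (h + x) ≤ 2 * J ^ 2 * (2 * T) :=
          Nat.mul_le_mul (by omega) (by omega)
        have h5 : D ^ 4 ≤ J ^ 2 * T := by
          calc D ^ 4 = D ^ 2 * D ^ 2 := by ring
            _ ≤ J ^ 2 * T := Nat.mul_le_mul h3 (by omega)
        have h6 : 5 * J ^ 2 * T ≤ T * T := Nat.mul_le_mul_right T (by omega)
        nlinarith
      have hlogR : Real.log (Rq h D x : ℕ) ≤ 9 * P := by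
        have h1 : Real.log (Rq h D x : ℕ) ≤ Real.log (2 * (T : ℝ) ^ 2) := by
          refine Real.log_le_log (by exact_mod_cast Nat.pos_of_ne_zero hR0) ?_
          exact_mod_cast hRT
        rw [Real.log_mul (by norm_num) (by positivity), Real.log_pow] at h1
        have h2 := Real.log_two_lt_d9
        have h3 : (2 : ℝ) ≤ P := by exact_mod_cast hP2
        push_cast at h1
        linarith
      rw [hR]
      have hsplit : Dd K w (Rq h D x) =
          (∏ p ∈ ((Rq h D x).primeFactors.filter (fun p => w < p)).filter (fun p => p ≤ P),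
            (1 + (K : ℝ) / p)) *
          ∏ p ∈ ((Rq h D x).primeFactors.filter (fun p => w < p)).filter (fun p => ¬ p ≤ P),
            (1 + (K : ℝ) / p) := by
        unfold Dd
        rw [prod_filter_mul_prod_filter_not]
      have e1 : ((Rq h D x).primeFactors.filter (fun p => w < p)).filter (fun p => p ≤ P) =
          (Qs w P).filter (fun p => p ∣ Rq h D x) := by
        ext p
        rw [mem_filter, mem_filter, Nat.mem_primeFactors, mem_filter, Qs, mem_filter, mem_Icc]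
        constructor
        · rintro ⟨⟨⟨hp, hpd, -⟩, hwp⟩, hpP⟩
          exact ⟨⟨⟨hp.one_le, hpP⟩, hp, hwp⟩, hpd⟩
        · rintro ⟨⟨⟨-, hpP⟩, hp, hwp⟩, hpd⟩
          exact ⟨⟨⟨hp, hpd, hR0⟩, hwp⟩, hpP⟩
      have e2 := big K P (Rq h D x) hP2 hR0
        (((Rq h D x).primeFactors.filter (fun p => w < p)).filter (fun p => ¬ p ≤ P))
        (fun p hp => by
          rw [mem_filter, mem_filter, Nat.mem_primeFactors] at hp
          exact ⟨hp.1.1.1, by omega, hp.1.1.2.1⟩) hlogR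
      have e3 : 0 ≤ ∏ p ∈ (Qs w P).filter (fun p => p ∣ Rq h D x), (1 + (K : ℝ) / p) :=
        prod_nonneg fun p _ => by positivity
      have e4 := mul_le_mul_of_nonneg_left (e2.trans hexpP) e3
      rw [hsplit, e1]
      have e5 : (1 + 1 / (w : ℝ)) *
          (∏ p ∈ (Qs w P).filter (fun p => p ∣ Rq h D x), (1 + (K : ℝ) / p) - 1) + 1 / w =
          (∏ p ∈ (Qs w P).filter (fun p => p ∣ Rq h D x), (1 + (K : ℝ) / p)) * (1 + 1 / (w : ℝ)) -
            1 := by ring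
      rw [e5]
      linarith
    refine (sum_le_sum hpt).trans ?_
    rw [sum_add_distrib, ← mul_sum, sum_const, nsmul_eq_mul]
    have h1 := avg K w P T h D hw h4P X hXsub
    rw [← hc] at h1
    have h2 : (X.card : ℝ) ≤ T := by
      have := card_le_card hXsub
      rw [Nat.card_Icc, Nat.add_sub_cancel] at this
      exact_mod_cast this
    have h3 : 1 / (w : ℝ) ≤ 1 := by
      rw [div_le_one hw0]
      exact_mod_cast hw
    have h4 : (0 : ℝ) < 1 / w := by positivity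
    have h5 := mul_le_mul_of_nonneg_left h1 (show (0 : ℝ) ≤ 1 + 1 / w by positivity)
    have h6 : 0 ≤ c * T / w := by positivity
    have h7 : (1 + 1 / (w : ℝ)) * (c * T / w) ≤ 2 * (c * T / w) :=
      mul_le_mul_of_nonneg_right (by linarith) h6
    have h8 := mul_le_mul_of_nonneg_right h2 h4.le
    calc _ ≤ 2 * (c * T / w) + T * (1 / (w : ℝ)) := add_le_add (h5.trans h7) h8
      _ = (2 * c + 1) * T / w := by ring
  have hsum : ∑ z' ∈ (EE J T).filter (fun z' => z' ≠ (j, h)), (Dd K w (Rn (j, h) z') - 1) =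
      ∑ j' ∈ range (J + 1), ∑ x ∈ (Icc 1 T).filter (fun x => (j', x) ≠ (j, h)),
        (Dd K w (Rn (j, h) (j', x)) - 1) := by
    rw [EE, sum_filter, sum_product]
    refine sum_congr rfl fun j' _ => ?_
    rw [sum_filter]
  rw [hsum]
  refine (sum_le_sum inner).trans (le_of_eq ?_)
  rw [sum_const, card_range, nsmul_eq_mul]
  push_cast
  ring

end Pool.Agent.K1H25.SQB
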